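import Pool.Agent.FS32.Frame

/-!
# Danzer's problem and additive energy: the energy inequality

`G F w = ∑ p ∈ F, e (w · p)`. `En ρ F l`: the number of the pairs `(P, Q)` of `l`-tuples of elements of `F` with
`‖∑ P - ∑ Q‖ ≤ ρ`. For all vectors `w i` with `‖w i‖ ρ ≤ 1 / 8` the sum of `‖G F (w i - w j)‖ ^ (2 l)` over all pairs is at
least `M ^ 2 / 2` times the energy `En ρ F l`, `M` the number of the vectors.
-/

set_option autoImplicit false

namespace Pool.Agent.DG62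

open Pool.Agent.H18.Danzer Finset ComplexConjugate

/-- `exp (2 π i t)` -/
noncomputable def ch (t : ℝ) : ℂ := Complex.exp ((2 * Real.pi * t : ℝ) * Complex.I)

/-- the exponential sum -/
noncomputable def G (F : Finset Plane) (w : Plane) : ℂ := ∑ p ∈ F, ch (dot w p)

/-- the energy of order `2 l` at the scale `ρ` -/
noncomputable def En (ρ : ℝ) (F : Finset Plane) (l : ℕ) : ℝ :=
  ∑ P ∈ Fintype.piFinset (fun _ : Fin l => F), ∑ Q ∈ Fintype.piFinset (fun _ : Fin l => F),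
    (Set.indicator {Q : Fin l → Plane | ‖(∑ j, P j) - ∑ j, Q j‖ ≤ ρ} (fun _ => (1 : ℝ)) Q)

lemma ch_add (s t : ℝ) : ch (s + t) = ch s * ch t := by
  unfold ch
  rw [← Complex.exp_add]
  congr 1
  push_cast
  ring

lemma ch_zero : ch 0 = 1 := by
  unfold ch
  simp

lemma ch_conj (t : ℝ) : conj (ch t) = ch (-t) := by
  unfold ch
  rw [← Complex.exp_conj]
  congr 1
  rw [map_mul, Complex.conj_ofReal, Complex.conj_I]
  push_cast
  ring

lemma ch_norm (t : ℝ) : ‖ch t‖ = 1 := Complex.norm_exp_ofReal_mul_I _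

lemma ch_sum {ι : Type*} (s : Finset ι) (f : ι → ℝ) : ch (∑ i ∈ s, f i) = ∏ i ∈ s, ch (f i) := by
  classical
  induction s using Finset.induction_on with
  | empty => simp [ch_zero]
  | insert a s ha ih => rw [sum_insert ha, prod_insert ha, ch_add, ih]

lemma dot_fsum {ι : Type*} (w : Plane) (s : Finset ι) (P : ι → Plane) :
    dot w (∑ i ∈ s, P i) = ∑ i ∈ s, dot w (P i) := by
  classical
  induction s using Finset.induction_on with
  | empty => simp [dot]
  | insert a s ha ih =>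
    rw [sum_insert ha, sum_insert ha, ← ih]
    unfold dot; simp; ring

lemma dot_sub_left (w w' z : Plane) : dot (w - w') z = dot w z - dot w' z := by
  unfold dot; simp; ring

lemma dot_sub_right (w z z' : Plane) : dot w (z - z') = dot w z - dot w z' := by
  unfold dot; simp; ring

lemma G_pow (F : Finset Plane) (w : Plane) (l : ℕ) :
    G F w ^ l = ∑ P ∈ Fintype.piFinset (fun _ : Fin l => F), ch (dot w (∑ j, P j)) := by
  unfold G
  rw [sum_pow']
  refine sum_congr rfl fun P _ => ?_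
  rw [dot_fsum, ch_sum]

lemma normSq_eq (z : ℂ) : (((‖z‖ ^ 2 : ℝ)) : ℂ) = z * conj z := by
  rw [Complex.mul_conj, Complex.normSq_eq_norm_sq]

lemma G_norm (F : Finset Plane) (w : Plane) (l : ℕ) :
    (((‖G F w‖ ^ (2 * l) : ℝ)) : ℂ) = ∑ P ∈ Fintype.piFinset (fun _ : Fin l => F),
      ∑ Q ∈ Fintype.piFinset (fun _ : Fin l => F), ch (dot w ((∑ j, P j) - ∑ j, Q j)) := by
  have h1 : ‖G F w‖ ^ (2 * l) = ‖G F w ^ l‖ ^ 2 := by
    rw [norm_pow, ← pow_mul, mul_comm]
  rw [h1, normSq_eq, G_pow, map_sum, sum_mul_sum]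
  refine sum_congr rfl fun P _ => sum_congr rfl fun Q _ => ?_
  rw [ch_conj, ← ch_add, dot_sub_right]
  congr 1

lemma pair_sum {I : Type} [Fintype I] (w : I → Plane) (z : Plane) :
    ∑ i, ∑ j, ch (dot (w i - w j) z) = (((‖∑ i, ch (dot (w i) z)‖ ^ 2 : ℝ)) : ℂ) := by
  rw [normSq_eq, map_sum, sum_mul_sum]
  refine sum_congr rfl fun i _ => sum_congr rfl fun j _ => ?_
  rw [ch_conj, ← ch_add, dot_sub_left]
  congr 1

lemma total {I : Type} [Fintype I] (w : I → Plane) (F : Finset Plane) (l : ℕ) :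
    ∑ i, ∑ j, ‖G F (w i - w j)‖ ^ (2 * l) = ∑ P ∈ Fintype.piFinset (fun _ : Fin l => F),
      ∑ Q ∈ Fintype.piFinset (fun _ : Fin l => F),
        ‖∑ i, ch (dot (w i) ((∑ j, P j) - ∑ j, Q j))‖ ^ 2 := by
  apply Complex.ofReal_injective
  rw [Complex.ofReal_sum, Complex.ofReal_sum]
  have e1 : ∀ i, ((∑ j, ‖G F (w i - w j)‖ ^ (2 * l) : ℝ) : ℂ) =
      ∑ P ∈ Fintype.piFinset (fun _ : Fin l => F),
      ∑ Q ∈ Fintype.piFinset (fun _ : Fin l => F), ∑ j,
        ch (dot (w i - w j) ((∑ j, P j) - ∑ j, Q j)) := by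
    intro i
    rw [Complex.ofReal_sum, sum_congr rfl fun j _ => G_norm F (w i - w j) l, sum_comm]
    exact sum_congr rfl fun P _ => sum_comm
  rw [sum_congr rfl fun i _ => e1 i, sum_comm]
  refine sum_congr rfl fun P _ => ?_
  rw [Complex.ofReal_sum, sum_comm]
  exact sum_congr rfl fun Q _ => pair_sum w _

lemma ch_re (t : ℝ) : (ch t).re = Real.cos (2 * Real.pi * t) := by
  unfold ch
  rw [Complex.exp_ofReal_mul_I_re]

lemma ch_near {t : ℝ} (h : |t| ≤ 1 / 8) : √2 / 2 ≤ (ch t).re := by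
  have hpi := Real.pi_pos
  rw [ch_re, ← Real.cos_pi_div_four, ← Real.cos_abs (2 * Real.pi * t)]
  apply Real.cos_le_cos_of_nonneg_of_le_pi (abs_nonneg _) (by linarith)
  rw [abs_mul, abs_of_pos (by positivity)]
  nlinarith

theorem energy {I : Type} [Fintype I] (w : I → Plane) (F : Finset Plane) (l : ℕ) {ρ : ℝ}
    (hw : ∀ i, ‖w i‖ * ρ ≤ 1 / 8) :
    (Fintype.card I : ℝ) ^ 2 / 2 * En ρ F l ≤ ∑ i, ∑ j, ‖G F (w i - w j)‖ ^ (2 * l) := by
  classical
  rw [total]
  have h1 : ∀ P Q : Fin l → Plane, (Fintype.card I : ℝ) ^ 2 / 2 *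
      (Set.indicator {Q : Fin l → Plane | ‖(∑ j, P j) - ∑ j, Q j‖ ≤ ρ} (fun _ => (1 : ℝ)) Q) ≤
      ‖∑ i, ch (dot (w i) ((∑ j, P j) - ∑ j, Q j))‖ ^ 2 := by
    intro P Q
    rw [Set.indicator_apply]
    split_ifs with h
    · have h2 : ‖(∑ j, P j) - ∑ j, Q j‖ ≤ ρ := h
      obtain ⟨z, hz⟩ : ∃ z : Plane, z = (∑ j, P j) - ∑ j, Q j := ⟨_, rfl⟩
      rw [← hz] at h2 ⊢
      have h3 : ∀ i, √2 / 2 ≤ (ch (dot (w i) z)).re := fun i => by
        apply ch_near
        refine (abs_dot_le _ _).trans (le_trans ?_ (hw i))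
        exact mul_le_mul_of_nonneg_left h2 (norm_nonneg _)
      have h4 : (Fintype.card I : ℝ) * (√2 / 2) ≤ ‖∑ i, ch (dot (w i) z)‖ := by
        refine le_trans ?_ (Complex.re_le_norm _)
        rw [Complex.re_sum]
        calc (Fintype.card I : ℝ) * (√2 / 2) = ∑ _i : I, √2 / 2 := by
              rw [sum_const, card_univ, nsmul_eq_mul]
          _ ≤ _ := sum_le_sum fun i _ => h3 i
      have h5 := pow_le_pow_left₀ (by positivity) h4 2
      have h6 : ((Fintype.card I : ℝ) * (√2 / 2)) ^ 2 = (Fintype.card I : ℝ) ^ 2 / 2 := by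
        have h7 : √2 ^ 2 = (2 : ℝ) := Real.sq_sqrt (by norm_num)
        rw [mul_pow, div_pow, h7]
        ring
      rw [h6] at h5
      rw [mul_one]
      exact h5
    · rw [mul_zero]
      positivity
  unfold En
  rw [mul_sum]
  refine sum_le_sum fun P _ => ?_
  rw [mul_sum]
  exact sum_le_sum fun Q _ => h1 P Q

/-- The energy is positive. -/
lemma En_pos {F : Finset Plane} (hF : F.Nonempty) (l : ℕ) {ρ : ℝ} (hρ : 0 ≤ ρ) : 1 ≤ En ρ F l := by
  classical
  obtain ⟨p, hp⟩ := hF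
  have hm : (fun _ : Fin l => p) ∈ Fintype.piFinset (fun _ : Fin l => F) :=
    Fintype.mem_piFinset.2 fun _ => hp
  have hnn : ∀ P Q : Fin l → Plane, 0 ≤
      (Set.indicator {Q : Fin l → Plane | ‖(∑ j, P j) - ∑ j, Q j‖ ≤ ρ} (fun _ => (1 : ℝ)) Q) :=
    fun P Q => Set.indicator_nonneg (fun _ _ => zero_le_one) _
  unfold En
  refine le_trans ?_ (single_le_sum (fun P _ => sum_nonneg fun Q _ => hnn P Q) hm)
  refine le_trans ?_ (single_le_sum (fun Q _ => hnn _ Q) hm)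
  rw [Set.indicator_of_mem]
  simpa using hρ

end Pool.Agent.DG62
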