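import Pool.Agent.DZ62.Final

/-!
# Danzer's problem and additive energy: general assembly

`miss`: if the sets `P i` are wide, there are `w i ∈ P i` such that the set of all points whose phases for some `w i` are
close to one of `T` given phases (and few other points) misses a convex set of area `A` in the disk.
-/

set_option autoImplicit false

open Metric Set MeasureTheory

namespace Pool.Agent.DG62

open Pool.Agent.H18.Danzer Pool.Agent.FS32 Pool.Agent.DZ62

lemma dot_frame {u : Plane} (hu : ‖u‖ = 1) (w z : Plane) :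
    dot w z = dot u w * dot u z + wedge u w * wedge u z := by
  have h1 : dot u w * dot u z + wedge u w * wedge u z = ‖u‖ ^ 2 * dot w z := by
    rw [norm_sq]; unfold dot wedge; ring
  rw [h1, hu]; ring

theorem miss (k T : ℕ) (hT : 1 ≤ T) (A L r q : ℝ) (hA : 1 ≤ A) (hL : 1 ≤ L)
    (hq : q = (k + 1) * T)
    (hr : 64 * q * A * L * (10 ^ 4 * q ^ 2 * A * L ^ 2) ^ (2 ^ k - 1) ≤ r) (x : Plane)
    (P : Fin (k + 1) → Set Plane) (hP : ∀ i, Wide (P i) (L ^ 2))
    (hPn : ∀ i, ∀ w ∈ P i, 1 / (r / 2) ≤ ‖w‖) :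
    ∃ w : Fin (k + 1) → Plane, (∀ i, w i ∈ P i) ∧ (∀ i, ‖w i‖ < r / (16 * q * A)) ∧
      ∀ (c : Fin (k + 1) → Fin T → Plane) (S E : Set Plane), (E ∩ closedBall x r).Finite →
        ((E ∩ closedBall x r).ncard : ℝ) ≤ r ^ 2 / (4 * A) →
        (∀ p ∈ S ∩ closedBall x r, p ∈ E ∨ ∃ i t, ∃ z : ℤ,
          |dot (w i) (p - c i t) - z| ≤ 1 / (16 * q)) →
        ∃ K : Set Plane, Convex ℝ K ∧ IsCompact K ∧ volume K = ENNReal.ofReal A ∧
          K ⊆ closedBall x r ∧ Disjoint K S := by
  classical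
  have hA0 : 0 < A := by linarith
  have hL0 : 0 < L := by linarith
  have hT' : (1 : ℝ) ≤ T := by exact_mod_cast hT
  have hk0 : (0 : ℝ) ≤ k := by positivity
  have hq1 : 1 ≤ q := by rw [hq]; nlinarith
  have hq0 : 0 < q := by linarith
  have hq2 : 1 ≤ q ^ 2 := one_le_pow₀ hq1
  have hqA : 1 ≤ q ^ 2 * A := by nlinarith
  have hL2 : 1 ≤ L ^ 2 := one_le_pow₀ hL
  obtain ⟨η, hη⟩ : ∃ η : ℝ, η = 1 / (256 * q ^ 2 * A) := ⟨_, rfl⟩
  have hη0 : 0 < η := by rw [hη]; positivity
  have hη1 : η ≤ 1 := by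
    rw [hη, div_le_one (by positivity)]
    nlinarith
  have hηL : η ≤ L ^ 2 := hη1.trans hL2
  obtain ⟨Q, hQ⟩ : ∃ Q : ℝ, Q = 10 ^ 4 * q ^ 2 * A * L ^ 2 := ⟨_, rfl⟩
  rw [← hQ] at hr
  have hQη : 36 * L ^ 2 / η ≤ Q := by
    have e : 36 * L ^ 2 / η = 9216 * (q ^ 2 * A * L ^ 2) := by
      rw [hη]; field_simp; ring
    have e' : Q = 10 ^ 4 * (q ^ 2 * A * L ^ 2) := by rw [hQ]; ring
    have h0 : 0 < q ^ 2 * A * L ^ 2 := by positivity
    rw [e, e']; linarith
  have hQ1 : 1 ≤ Q := by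
    have e' : Q = 10 ^ 4 * (q ^ 2 * A * L ^ 2) := by rw [hQ]; ring
    have h0 : 1 ≤ q ^ 2 * A * L ^ 2 := by nlinarith
    rw [e']; linarith
  have hr1 : 64 * q * A * L ≤ r := by
    refine le_trans ?_ hr
    have h1 : 1 ≤ Q ^ (2 ^ k - 1) := one_le_pow₀ hQ1
    have h2 : 0 < 64 * q * A * L := by positivity
    nlinarith
  have hr64 : 64 ≤ r := by
    refine le_trans ?_ hr1
    have h1 : 1 ≤ q * A := by nlinarith
    have h2 : 1 ≤ q * A * L := by nlinarith
    linarith
  have hr0 : 0 < r := by linarith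
  obtain ⟨u, M, hu, hLM, hMQ, hw⟩ := frameQ k P L η hL0 hη0 hηL hP (fun i h => by
    have h1 := hPn i 0 h
    rw [norm_zero] at h1
    have : 0 < 1 / (r / 2) := by positivity
    linarith)
  choose w hwP hw1 hw2 using hw
  have hM0 : 0 < M := by linarith
  have hMr : 32 * q * A * M ≤ r := by
    have h1 : M ≤ 2 * L * Q ^ (2 ^ k - 1) := hMQ.trans
      (mul_le_mul_of_nonneg_left (pow_le_pow_left₀ (by positivity) hQη _) (by positivity))
    have h2 : 32 * q * A * M ≤ 32 * q * A * (2 * L * Q ^ (2 ^ k - 1)) :=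
      mul_le_mul_of_nonneg_left h1 (by positivity)
    have h3 : 32 * q * A * (2 * L * Q ^ (2 ^ k - 1)) = 64 * q * A * L * Q ^ (2 ^ k - 1) := by ring
    linarith
  have hwn : ∀ i, ‖w i‖ < r / (16 * q * A) := by
    intro i
    have h1 := dot_sq_add_wedge_sq u (w i)
    rw [hu] at h1
    have h2 : dot u (w i) ^ 2 ≤ M ^ 2 := by
      rw [← sq_abs]; exact pow_le_pow_left₀ (abs_nonneg _) (hw1 i) 2
    have h3 : wedge u (w i) ^ 2 ≤ (η / M) ^ 2 := by
      rw [← sq_abs]; exact pow_le_pow_left₀ (abs_nonneg _) (hw2 i) 2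
    have h4 : η / M ≤ 1 := by
      rw [div_le_one hM0]; linarith
    have h5 : 0 ≤ η / M := by positivity
    have h6 : ‖w i‖ ^ 2 < (M + 1) ^ 2 := by nlinarith
    have h7 : ‖w i‖ < M + 1 := lt_of_pow_lt_pow_left₀ 2 (by linarith) h6
    have h8 : M + 1 ≤ r / (16 * q * A) := by
      rw [le_div_iff₀ (by positivity)]
      have h9 : (M + 1) * (16 * q * A) ≤ 2 * M * (16 * q * A) :=
        mul_le_mul_of_nonneg_right (by linarith) (by positivity)
      linarith
    linarith
  refine ⟨w, hwP, hwn, fun c S E hE hEn hS => ?_⟩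
  obtain ⟨h, hh⟩ : ∃ h : ℝ, h = 1 / (32 * q * M) := ⟨_, rfl⟩
  obtain ⟨l, hl⟩ : ∃ l : ℝ, l = M / (32 * q * η) := ⟨_, rfl⟩
  have hh0 : 0 < h := by rw [hh]; positivity
  have hl0 : 0 < l := by rw [hl]; positivity
  have hhr : h ≤ r / 4 := by
    have h1 : h ≤ 1 := by
      rw [hh, div_le_one (by positivity)]
      have h1 : 1 ≤ q * M := by nlinarith
      linarith
    linarith
  have hlr : l ≤ r / 4 := by
    have e : l = 8 * q * A * M := by
      rw [hl, hη]; field_simp; ring
    rw [e]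
    have h1 : M ≤ 2 * L * Q ^ (2 ^ k - 1) := hMQ.trans
      (mul_le_mul_of_nonneg_left (pow_le_pow_left₀ (by positivity) hQη _) (by positivity))
    have h2 : 8 * q * A * M ≤ 8 * q * A * (2 * L * Q ^ (2 ^ k - 1)) :=
      mul_le_mul_of_nonneg_left h1 (by positivity)
    have h3 : 8 * q * A * (2 * L * Q ^ (2 ^ k - 1)) =
        (64 * q * A * L * Q ^ (2 ^ k - 1)) / 4 := by ring
    linarith
  obtain ⟨K, hK⟩ : ∃ K : Set Plane, K = box u (-h) h (-l) l := ⟨_, rfl⟩
  have hKb : K ⊆ closedBall (0 : Plane) (h + l) := by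
    rw [hK]; exact box_subset_closedBall hu hh0.le hl0.le
  have hKclosed : IsClosed K := by rw [hK]; exact isClosed_box _ _ _ _ _
  have hKconv : Convex ℝ K := by rw [hK]; exact convex_box _ _ _ _ _
  have hKvol : volume K = ENNReal.ofReal A := by
    rw [hK, volume_box u hu, ← ENNReal.ofReal_mul (by linarith)]
    congr 1
    rw [hh, hl, hη]; field_simp; ring
  have hcard : (Fintype.card (Fin (k + 1) × Fin T) : ℝ) ≤ q := by
    rw [Fintype.card_prod, Fintype.card_fin, Fintype.card_fin, hq]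
    push_cast
    exact le_rfl
  obtain ⟨y, hy, hyE, hyc⟩ := exists_centre x hr0 hA0 (ρ := h + l) (by linarith) K E hKb
    hKclosed.measurableSet hKvol hE hEn (fun i : Fin (k + 1) × Fin T => c i.1 i.2)
    (fun i => w i.1) hq1 hcard (fun i => hPn i.1 _ (hwP i.1))
  have hKx : (fun z : Plane => z - y) ⁻¹' K ⊆ closedBall x r := by
    intro z hz
    have h1 := hKb hz
    rw [mem_closedBall_zero_iff] at h1
    rw [mem_closedBall, dist_eq_norm] at hy ⊢
    calc ‖z - x‖ = ‖(z - y) + (y - x)‖ := by congr 1; abel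
      _ ≤ ‖z - y‖ + ‖y - x‖ := norm_add_le _ _
      _ ≤ r := by linarith
  refine ⟨(fun z : Plane => z - y) ⁻¹' K, ?_, ?_, ?_, hKx, ?_⟩
  · have h1 := hKconv.translate_preimage_right (-y)
    have h2 : (fun z : Plane => z - y) = fun z => -y + z := by
      funext z; exact sub_eq_neg_add z y
    rw [h2]; exact h1
  · exact isCompact_of_isClosed_isBounded (hKclosed.preimage (continuous_sub_right y))
      (isBounded_closedBall.subset hKx)
  · rw [(measurePreserving_sub_right volume y).measure_preimage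
      hKclosed.measurableSet.nullMeasurableSet, hKvol]
  · rw [Set.disjoint_left]
    intro z hz hzS
    rcases hS z ⟨hzS, hKx hz⟩ with hzE | ⟨i, t, a, ha⟩
    · exact hyE z hzE hz
    · have h1 := hyc (i, t) a
      have hz' : z - y ∈ box u (-h) h (-l) l := by rw [← hK]; exact hz
      have h2 : |dot (w i) (z - y)| ≤ 1 / (16 * q) := by
        rw [dot_frame hu]
        refine (abs_add_le _ _).trans ?_
        rw [abs_mul, abs_mul]
        have b1 : |dot u (z - y)| ≤ h := abs_le.2 hz'.1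
        have b2 : |wedge u (z - y)| ≤ l := abs_le.2 hz'.2
        calc |dot u (w i)| * |dot u (z - y)| + |wedge u (w i)| * |wedge u (z - y)|
            ≤ M * h + η / M * l := add_le_add
              (mul_le_mul (hw1 i) b1 (abs_nonneg _) hM0.le)
              (mul_le_mul (hw2 i) b2 (abs_nonneg _) (by positivity))
          _ = 1 / (16 * q) := by
            rw [hh, hl]; field_simp; ring
      have h3 : dot (w i) (y - c i t) - a =
          (dot (w i) (z - c i t) - a) - dot (w i) (z - y) := by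
        unfold dot; simp; ring
      have h4 : |dot (w i) (y - c i t) - a| ≤ 1 / (8 * q) := by
        rw [h3]
        refine (abs_sub _ _).trans ((add_le_add ha h2).trans ?_)
        apply le_of_eq
        field_simp
        norm_num
      exact absurd h1 (not_lt.2 h4)

end Pool.Agent.DG62
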