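import Pool.Agent.DG62.Energy

/-!
# Danzer's problem and additive energy: almost all points have the same phase
-/

set_option autoImplicit false

namespace Pool.Agent.DG62

open Pool.Agent.H18.Danzer Finset

open Classical in
/-- the points of `F` whose phase is far from `φ` -/
noncomputable def bad (F : Finset Plane) (w : Plane) (φ q : ℝ) : Finset Plane :=
  F.filter (fun p => ∀ z : ℤ, 1 / (16 * q) < |dot w p - φ - z|)

lemma cos_far {q t : ℝ} (hq : 1 ≤ q) (h : ∀ z : ℤ, 1 / (16 * q) < |t - z|) :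
    Real.cos (2 * Real.pi * t) ≤ 1 - 1 / (32 * q ^ 2) := by
  have h1 := h (round t)
  have h2 : |t - round t| ≤ 1 / 2 := abs_sub_round t
  have h3 : Real.cos (2 * Real.pi * t) = Real.cos (2 * Real.pi * (t - round t)) := by
    have e : 2 * Real.pi * (t - round t) = 2 * Real.pi * t - (round t : ℤ) * (2 * Real.pi) := by
      ring
    rw [e, Real.cos_sub_int_mul_two_pi]
  have hpi := Real.pi_pos
  have h4 : |2 * Real.pi * (t - round t)| ≤ Real.pi := by
    rw [abs_mul, abs_of_pos (by positivity)]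
    nlinarith
  have h5 := Real.cos_le_one_sub_mul_cos_sq h4
  rw [h3]
  refine h5.trans ?_
  have h6 : 2 / Real.pi ^ 2 * (2 * Real.pi * (t - round t)) ^ 2 = 8 * |t - round t| ^ 2 := by
    rw [sq_abs]
    field_simp
    ring
  rw [h6]
  have h7 : (1 / (16 * q)) ^ 2 ≤ |t - round t| ^ 2 := pow_le_pow_left₀ (by positivity) h1.le 2
  have h8 : (1 / (16 * q)) ^ 2 = 1 / (256 * q ^ 2) := by
    field_simp
    norm_num
  rw [h8] at h7
  have h9 : 8 * (1 / (256 * q ^ 2)) = 1 / (32 * q ^ 2) := by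
    field_simp
    norm_num
  linarith

theorem phase {F : Finset Plane} {w : Plane} {δ q : ℝ} (hq : 1 ≤ q)
    (h : (1 - δ) * F.card ≤ ‖G F w‖) :
    ∃ φ : ℝ, ((bad F w φ q).card : ℝ) ≤ 32 * q ^ 2 * δ * F.card := by
  classical
  obtain ⟨φ, hφ⟩ : ∃ φ : ℝ, φ = Complex.arg (G F w) / (2 * Real.pi) := ⟨_, rfl⟩
  refine ⟨φ, ?_⟩
  have hpi := Real.pi_pos
  have h1 : G F w = (‖G F w‖ : ℂ) * ch φ := by
    unfold ch
    have e : 2 * Real.pi * φ = Complex.arg (G F w) := by rw [hφ]; field_simp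
    rw [e, Complex.norm_mul_exp_arg_mul_I]
  have h2 : G F w * ch (-φ) = (‖G F w‖ : ℂ) := by
    calc G F w * ch (-φ) = (‖G F w‖ : ℂ) * ch φ * ch (-φ) := by rw [← h1]
      _ = (‖G F w‖ : ℂ) * ch (φ + -φ) := by rw [mul_assoc, ← ch_add]
      _ = (‖G F w‖ : ℂ) := by rw [add_neg_cancel, ch_zero, mul_one]
  have h3 : ‖G F w‖ = ∑ p ∈ F, Real.cos (2 * Real.pi * (dot w p - φ)) := by
    have h4 := congrArg Complex.re h2
    rw [Complex.ofReal_re] at h4
    rw [← h4]
    unfold G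
    rw [sum_mul, Complex.re_sum]
    refine sum_congr rfl fun p _ => ?_
    rw [← ch_add, ch_re]
    rfl
  have hbad : bad F w φ q ⊆ F := by
    unfold bad
    exact filter_subset _ _
  have h5 : ∑ p ∈ F, Real.cos (2 * Real.pi * (dot w p - φ)) ≤
      ∑ p ∈ F, (1 - if p ∈ bad F w φ q then 1 / (32 * q ^ 2) else 0) := by
    refine sum_le_sum fun p _ => ?_
    split_ifs with hp
    · apply cos_far hq
      unfold bad at hp
      exact (mem_filter.1 hp).2
    · rw [sub_zero]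
      exact Real.cos_le_one _
  have hf : F.filter (fun p => p ∈ bad F w φ q) = bad F w φ q := by
    ext p
    rw [mem_filter]
    exact ⟨fun h => h.2, fun h => ⟨hbad h, h⟩⟩
  obtain ⟨b, hb⟩ : ∃ b : ℝ, b = ((bad F w φ q).card : ℝ) := ⟨_, rfl⟩
  have h6 : ∑ p ∈ F, (1 - if p ∈ bad F w φ q then 1 / (32 * q ^ 2) else 0) =
      F.card - b * (1 / (32 * q ^ 2)) := by
    rw [sum_sub_distrib, sum_const, nsmul_eq_mul, mul_one, ← sum_filter, hf, sum_const,
      nsmul_eq_mul, hb]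
  rw [h3] at h
  rw [h6] at h5
  have h7 : b * (1 / (32 * q ^ 2)) ≤ δ * F.card := by linarith
  have h8 : b = b * (1 / (32 * q ^ 2)) * (32 * q ^ 2) := by
    field_simp
  rw [← hb, h8]
  calc b * (1 / (32 * q ^ 2)) * (32 * q ^ 2)
      ≤ δ * F.card * (32 * q ^ 2) := mul_le_mul_of_nonneg_right h7 (by positivity)
    _ = 32 * q ^ 2 * δ * F.card := by ring

lemma not_bad {F : Finset Plane} {w : Plane} {φ q : ℝ} {p : Plane} (hp : p ∈ F)
    (h : p ∉ bad F w φ q) : ∃ z : ℤ, |dot w p - φ - z| ≤ 1 / (16 * q) := by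
  classical
  by_contra hcon
  push Not at hcon
  apply h
  unfold bad
  exact mem_filter.2 ⟨hp, hcon⟩

end Pool.Agent.DG62
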