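import Pool.Agent.DG62.WideG
import Pool.Agent.DG62.PhaseG
import Pool.Agent.DG62.Miss

/-!
# Danzer's problem and additive energy: the main theorem
-/

set_option autoImplicit false

open Metric Set MeasureTheory

namespace Pool.Agent.DG62

open Pool.Agent.H18.Danzer Pool.Agent.DZ62

lemma wide_mono {P P' : Set Plane} {V : ℝ} (h : Wide P V) (hP : P ⊆ P') : Wide P' V := by
  intro u hu X Y hX hY hXY
  obtain ⟨w, hw, h1, h2⟩ := h u hu X Y hX hY hXY
  exact ⟨w, hP hw, h1, h2⟩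

/-- The power in the choice of `l`. -/
lemma pow_delta {δ R : ℝ} {l : ℕ} (hδ1 : δ ≤ 1) (hR : 0 < R)
    (hl : Real.log R ≤ δ * l) : (1 - δ) ^ (2 * l) * R ^ 2 ≤ 1 := by
  have h1 : (1 - δ) ^ (2 * l) ≤ Real.exp (-(2 * Real.log R)) := by
    have h2 : 1 - δ ≤ Real.exp (-δ) := by
      have := Real.add_one_le_exp (-δ)
      linarith
    calc (1 - δ) ^ (2 * l) ≤ Real.exp (-δ) ^ (2 * l) := pow_le_pow_left₀ (by linarith) h2 _
      _ = Real.exp (((2 * l : ℕ) : ℝ) * (-δ)) := by rw [Real.exp_nat_mul]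
      _ ≤ Real.exp (-(2 * Real.log R)) := by
          apply Real.exp_le_exp.2
          push_cast
          linarith
  have h3 : R ^ 2 = Real.exp (2 * Real.log R) := by
    rw [show (2 : ℝ) * Real.log R = ((2 : ℕ) : ℝ) * Real.log R by norm_num, Real.exp_nat_mul,
      Real.exp_log hR]
  rw [h3]
  calc (1 - δ) ^ (2 * l) * Real.exp (2 * Real.log R)
      ≤ Real.exp (-(2 * Real.log R)) * Real.exp (2 * Real.log R) :=
        mul_le_mul_of_nonneg_right h1 (Real.exp_pos _).le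
    _ = 1 := by rw [← Real.exp_add, neg_add_cancel, Real.exp_zero]

theorem energy_main (k T l : ℕ) (hT : 1 ≤ T) (A D L r q : ℝ) (hA : 1 ≤ A) (hD : 1 ≤ D) (hL : 1 ≤ L)
    (hq : q = (k + 1) * T)
    (hr : 64 * q * A * L * (10 ^ 4 * q ^ 2 * A * L ^ 2) ^ (2 ^ k - 1) ≤ r)
    (hl : 256 * q ^ 3 * A * D * Real.log (L * r) ≤ l) (x : Plane) (S E : Set Plane)
    (hE : (E ∩ closedBall x r).Finite)
    (hEn : ((E ∩ closedBall x r).ncard : ℝ) ≤ r ^ 2 / (8 * A))
    (c : Fin (k + 1) → Fin T → Plane) (F : Fin (k + 1) → Finset Plane)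
    (hF : ∀ i, ((F i).card : ℝ) ≤ D * r ^ 2)
    (hN : ∀ i, 16 * ((F i).card : ℝ) ^ (2 * l) ≤ (L * r) ^ 2 * En (q * A / r) (F i) l)
    (hS : ∀ p ∈ S ∩ closedBall x r, p ∈ E ∨ ∃ i t, ∃ a ∈ F i, p = c i t + a) :
    ∃ K : Set Plane, Convex ℝ K ∧ IsCompact K ∧ volume K = ENNReal.ofReal A ∧
      K ⊆ closedBall x r ∧ Disjoint K S := by
  classical
  have hA0 : 0 < A := by linarith
  have hD0 : 0 < D := by linarith
  have hL0 : 0 < L := by linarith
  have hT' : (1 : ℝ) ≤ T := by exact_mod_cast hT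
  have hk0 : (0 : ℝ) ≤ k := by positivity
  have hq1 : 1 ≤ q := by rw [hq]; nlinarith
  have hq0 : 0 < q := by linarith
  have hr1 : 64 * q * A ≤ r := by
    refine le_trans ?_ hr
    have h0 : 1 ≤ q ^ 2 * A := by nlinarith [one_le_pow₀ hq1 (n := 2)]
    have h1 : 1 ≤ q ^ 2 * A * L ^ 2 := by nlinarith [one_le_pow₀ hL (n := 2)]
    have h2 : 1 ≤ (10 ^ 4 * q ^ 2 * A * L ^ 2) ^ (2 ^ k - 1) := by
      apply one_le_pow₀
      have e : 10 ^ 4 * q ^ 2 * A * L ^ 2 = 10 ^ 4 * (q ^ 2 * A * L ^ 2) := by ring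
      rw [e]; linarith
    have h3 : 0 < 64 * q * A := by positivity
    calc 64 * q * A = 64 * q * A * 1 * 1 := by ring
      _ ≤ 64 * q * A * L * (10 ^ 4 * q ^ 2 * A * L ^ 2) ^ (2 ^ k - 1) :=
        mul_le_mul (mul_le_mul_of_nonneg_left hL h3.le) h2 zero_le_one (by positivity)
  have hqA1 : 1 ≤ q * A := by nlinarith
  have hr64 : 64 ≤ r := by linarith
  have hr0 : 0 < r := by linarith
  obtain ⟨δ, hδ⟩ : ∃ δ : ℝ, δ = 1 / (256 * q ^ 3 * A * D) := ⟨_, rfl⟩
  have hδ0 : 0 < δ := by rw [hδ]; positivity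
  have hq3 : 1 ≤ q ^ 3 := one_le_pow₀ hq1
  have hqAD : 1 ≤ q ^ 3 * A * D := by
    have h1 : 1 ≤ q ^ 3 * A := by nlinarith
    nlinarith
  have hδ1 : δ ≤ 1 := by
    rw [hδ, div_le_one (by positivity)]
    have e : 256 * q ^ 3 * A * D = 256 * (q ^ 3 * A * D) := by ring
    rw [e]; linarith
  have hLr : 64 ≤ L * r := by nlinarith
  have hlog : Real.log (L * r) ≤ δ * l := by
    rw [hδ, one_div, ← div_eq_inv_mul, le_div_iff₀ (by positivity)]
    linarith
  have hpow := pow_delta hδ1 (by linarith : 0 < L * r) hlog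
  have hp0 : 0 ≤ (1 - δ) ^ (2 * l) := pow_nonneg (by linarith) _
  obtain ⟨W, hW⟩ : ∃ W : ℝ, W = 1 / (r / 2) := ⟨_, rfl⟩
  have hW0 : 0 < W := by rw [hW]; positivity
  have hW2 : W ^ 2 = 4 / r ^ 2 := by rw [hW]; field_simp; norm_num
  obtain ⟨R, hR⟩ : ∃ R : ℝ, R = r / (16 * q * A) := ⟨_, rfl⟩
  have hWR : W ≤ R := by
    rw [hW, hR, one_div_div, div_le_div_iff₀ (by positivity) (by positivity)]
    nlinarith
  have hRρ : R * (q * A / r) ≤ 1 / 12 := by
    have e : R * (q * A / r) = 1 / 16 := by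
      rw [hR]; field_simp
    rw [e]; norm_num
  have key : ∀ F' : Finset Plane, F'.Nonempty →
      16 * (F'.card : ℝ) ^ (2 * l) ≤ (L * r) ^ 2 * En (q * A / r) F' l →
      Wide (SpecR F' W R δ) (L ^ 2) := by
    intro F' hF' hN'
    refine wide_spec (l := l) (N := (L * r) ^ 2 / 8) (ρ := q * A / r) hF' hW0 hWR (by positivity)
      hRρ (by positivity) ?_ ?_ ?_
    · linarith
    · rw [hW2]
      apply le_of_eq
      field_simp
      norm_num
    · have h1 : 2 * ((L * r) ^ 2 / 8) ≤ (L * r) ^ 2 := by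
        have : 0 ≤ (L * r) ^ 2 := by positivity
        linarith
      exact (mul_le_mul_of_nonneg_left h1 hp0).trans hpow
  have hwide : ∀ i, Wide (SpecR (F i) W R δ) (L ^ 2) := by
    intro i
    rcases (F i).eq_empty_or_nonempty with h | h
    · refine wide_mono (key {0} (Finset.singleton_nonempty _) ?_) ?_
      · have h1 := En_pos (F := {(0 : Plane)}) (Finset.singleton_nonempty _) l
          (by positivity : 0 ≤ q * A / r)
        have h2 : (64 : ℝ) ^ 2 ≤ (L * r) ^ 2 := pow_le_pow_left₀ (by norm_num) hLr 2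
        rw [Finset.card_singleton, Nat.cast_one, one_pow]
        nlinarith
      · intro w hw
        refine ⟨hw.1, Or.inl ?_⟩
        rw [h]
        simp
    · exact key (F i) h (hN i)
  obtain ⟨w, hw', hwR, hmiss⟩ := miss k T hT A L r q hA hL hq hr x
    (fun i => SpecR (F i) W R δ) hwide (fun i v hv => by rw [← hW]; exact hv.1)
  have hw : ∀ i, W ≤ ‖w i‖ ∧ (1 - δ) * (F i).card ≤ ‖G (F i) (w i)‖ := by
    intro i
    refine ⟨(hw' i).1, ?_⟩
    rcases (hw' i).2 with h | h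
    · exact h
    · exact absurd (hwR i) (not_lt.2 (by rw [← hR]; exact h))
  choose φ hφ using fun i => phase (F := F i) (w := w i) (δ := δ) hq1 (hw i).2
  have hwn : ∀ i, ‖w i‖ ^ 2 ≠ 0 := fun i => by
    have h1 : 0 < ‖w i‖ := hW0.trans_le (hw i).1
    positivity
  have hdotw : ∀ i (s : ℝ) (v : Plane), dot (w i) (v - s • w i) = dot (w i) v - s * ‖w i‖ ^ 2 := by
    intro i s v
    rw [← dot_self]
    unfold dot; simp; ring
  obtain ⟨B, hB⟩ : ∃ B : Finset Plane, B = (Finset.univ : Finset (Fin (k + 1) × Fin T)).biUnion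
      (fun it => (bad (F it.1) (w it.1) (φ it.1) q).image (fun a => c it.1 it.2 + a)) := ⟨_, rfl⟩
  have hBc : (B.card : ℝ) ≤ r ^ 2 / (8 * A) := by
    have h1 : B.card ≤ ∑ it : Fin (k + 1) × Fin T, (bad (F it.1) (w it.1) (φ it.1) q).card := by
      rw [hB]
      refine Finset.card_biUnion_le.trans (Finset.sum_le_sum fun it _ => Finset.card_image_le)
    have h2 : ∀ it : Fin (k + 1) × Fin T, ((bad (F it.1) (w it.1) (φ it.1) q).card : ℝ) ≤
        32 * q ^ 2 * δ * (D * r ^ 2) := fun it =>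
      (hφ it.1).trans (mul_le_mul_of_nonneg_left (hF it.1) (by positivity))
    have h3 : (B.card : ℝ) ≤ ∑ _it : Fin (k + 1) × Fin T, 32 * q ^ 2 * δ * (D * r ^ 2) := by
      have h4 : (B.card : ℝ) ≤
          ∑ it : Fin (k + 1) × Fin T, ((bad (F it.1) (w it.1) (φ it.1) q).card : ℝ) := by
        exact_mod_cast h1
      exact h4.trans (Finset.sum_le_sum fun it _ => h2 it)
    rw [Finset.sum_const, Finset.card_univ, Fintype.card_prod, Fintype.card_fin, Fintype.card_fin,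
      nsmul_eq_mul] at h3
    push_cast at h3
    rw [← hq] at h3
    refine h3.trans (le_of_eq ?_)
    rw [hδ]
    field_simp
    norm_num
  refine hmiss (fun i t => c i t + (φ i / ‖w i‖ ^ 2) • w i) S (E ∪ ↑B) ?_ ?_ ?_
  · rw [union_inter_distrib_right]
    exact hE.union (B.finite_toSet.subset inter_subset_left)
  · rw [union_inter_distrib_right]
    have h1 : (((E ∩ closedBall x r) ∪ (↑B ∩ closedBall x r)).ncard : ℝ) ≤
        (E ∩ closedBall x r).ncard + ((↑B : Set Plane) ∩ closedBall x r).ncard := by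
      exact_mod_cast ncard_union_le _ _
    have h2 : (((↑B : Set Plane) ∩ closedBall x r).ncard : ℝ) ≤ B.card := by
      have h3 := ncard_le_ncard (inter_subset_left : (↑B : Set Plane) ∩ closedBall x r ⊆ ↑B)
        B.finite_toSet
      rw [ncard_coe_finset] at h3
      exact_mod_cast h3
    have h4 : r ^ 2 / (8 * A) + r ^ 2 / (8 * A) = r ^ 2 / (4 * A) := by
      field_simp
      norm_num
    linarith
  · intro p hp
    rcases hS p hp with h | ⟨i, t, a, ha, hpa⟩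
    · exact Or.inl (Or.inl h)
    · by_cases hb : a ∈ bad (F i) (w i) (φ i) q
      · refine Or.inl (Or.inr ?_)
        rw [hB, Finset.mem_coe, Finset.mem_biUnion]
        exact ⟨(i, t), Finset.mem_univ _, Finset.mem_image.2 ⟨a, hb, hpa.symm⟩⟩
      · obtain ⟨z, hz⟩ := not_bad ha hb
        refine Or.inr ⟨i, t, z, ?_⟩
        have e1 : p - (c i t + (φ i / ‖w i‖ ^ 2) • w i) = a - (φ i / ‖w i‖ ^ 2) • w i := by
          rw [hpa]; abel
        have e2 : φ i / ‖w i‖ ^ 2 * ‖w i‖ ^ 2 = φ i := div_mul_cancel₀ _ (hwn i)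
        rw [e1, hdotw, e2]
        exact hz

/-- The energy as the number of elements of a set. -/
theorem En_eq_ncard (ρ : ℝ) (F : Finset Plane) (l : ℕ) : En ρ F l =
    ({P : (Fin l → Plane) × (Fin l → Plane) | (∀ j, P.1 j ∈ F ∧ P.2 j ∈ F) ∧
      ‖(∑ j, P.1 j) - ∑ j, P.2 j‖ ≤ ρ}.ncard : ℝ) := by
  classical
  have h1 : {P : (Fin l → Plane) × (Fin l → Plane) | (∀ j, P.1 j ∈ F ∧ P.2 j ∈ F) ∧
      ‖(∑ j, P.1 j) - ∑ j, P.2 j‖ ≤ ρ} =
      ↑(((Fintype.piFinset (fun _ : Fin l => F)) ×ˢ (Fintype.piFinset (fun _ : Fin l => F))).filter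
        (fun P => ‖(∑ j, P.1 j) - ∑ j, P.2 j‖ ≤ ρ)) := by
    ext P
    rw [Finset.coe_filter]
    simp only [mem_setOf_eq, Finset.mem_product, Fintype.mem_piFinset]
    exact ⟨fun h => ⟨⟨fun j => (h.1 j).1, fun j => (h.1 j).2⟩, h.2⟩,
      fun h => ⟨fun j => ⟨h.1.1 j, h.1.2 j⟩, h.2⟩⟩
  rw [h1, ncard_coe_finset, Finset.card_filter, Finset.sum_product]
  unfold En
  push_cast
  refine Finset.sum_congr rfl fun P _ => Finset.sum_congr rfl fun Q _ => ?_
  rw [indicator_apply]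
  rfl

end Pool.Agent.DG62
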