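import Pool.Agent.DG62.Energy
import Pool.Agent.DZ62.Dual

/-!
# Danzer's problem and additive energy: the large spectrum is wide

If `F` has large energy at the scale `ρ` then every box of area larger than `V`, of sides at most `R`, contains a vector `w` of
norm at least `W` with `‖G F w‖ ≥ (1 - δ) |F|`: apply `energy` to a grid of `W`-separated points. Longer boxes contain a vector
of norm `R`.
-/

set_option autoImplicit false

namespace Pool.Agent.DG62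

open Pool.Agent.H18.Danzer Pool.Agent.DZ62 Finset

/-- the vectors of norm at least `W` in the large spectrum of `F` -/
def Spec (F : Finset Plane) (W δ : ℝ) : Set Plane :=
  {w | W ≤ ‖w‖ ∧ (1 - δ) * F.card ≤ ‖G F w‖}

/-- `Spec` and all vectors of norm at least `R` -/
def SpecR (F : Finset Plane) (W R δ : ℝ) : Set Plane :=
  {w | W ≤ ‖w‖ ∧ ((1 - δ) * F.card ≤ ‖G F w‖ ∨ R ≤ ‖w‖)}

/-- the vector with coordinates `α`, `β` in the frame of `u` -/
noncomputable def vec (u : Plane) (α β : ℝ) : Plane := !₂[α * u 0 - β * u 1, α * u 1 + β * u 0]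

lemma dot_vec {u : Plane} (hu : ‖u‖ = 1) (α β : ℝ) : dot u (vec u α β) = α := by
  have h := norm_sq u
  rw [hu] at h
  unfold dot vec
  simp
  linear_combination -α * h

lemma wedge_vec {u : Plane} (hu : ‖u‖ = 1) (α β : ℝ) : wedge u (vec u α β) = β := by
  have h := norm_sq u
  rw [hu] at h
  unfold wedge vec
  simp
  linear_combination -β * h

lemma G_zero (F : Finset Plane) : ‖G F 0‖ = F.card := by
  have h1 : G F 0 = F.card := by
    unfold G
    have h : ∀ p : Plane, ch (dot 0 p) = 1 := fun p => by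
      have : dot 0 p = 0 := by unfold dot; simp
      rw [this, ch_zero]
    rw [sum_congr rfl fun p _ => h p, sum_const, nsmul_eq_mul, mul_one]
  rw [h1]
  simp

lemma abs_sub_fin {a : ℕ} (s s' : Fin a) : |((s : ℕ) : ℝ) - ((s' : ℕ) : ℝ)| ≤ (a : ℝ) - 1 := by
  have h1 : ((s : ℕ) : ℝ) + 1 ≤ a := by exact_mod_cast s.2
  have h2 : ((s' : ℕ) : ℝ) + 1 ≤ a := by exact_mod_cast s'.2
  have h3 : (0 : ℝ) ≤ ((s : ℕ) : ℝ) := Nat.cast_nonneg _
  have h4 : (0 : ℝ) ≤ ((s' : ℕ) : ℝ) := Nat.cast_nonneg _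
  rw [abs_le]
  constructor <;> linarith

lemma norm_vec {u : Plane} (hu : ‖u‖ = 1) (α β : ℝ) : ‖vec u α β‖ ^ 2 = α ^ 2 + β ^ 2 := by
  have h1 := dot_sq_add_wedge_sq u (vec u α β)
  rw [hu, dot_vec hu, wedge_vec hu] at h1
  linarith

theorem wide_spec {F : Finset Plane} (hF : F.Nonempty) {l : ℕ} {W V R N ρ δ : ℝ} (hW : 0 < W)
    (hWR : W ≤ R) (hρ0 : 0 ≤ ρ) (hρ : R * ρ ≤ 1 / 12) (hN0 : 0 < N)
    (hNE : 2 * (F.card : ℝ) ^ (2 * l) ≤ N * En ρ F l)
    (hV : 2 * N * W ^ 2 ≤ V) (hδ : (1 - δ) ^ (2 * l) * (2 * N) ≤ 1) :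
    Wide (SpecR F W R δ) V := by
  classical
  intro u hu X Y hX hY hXY
  have hR0 : 0 < R := hW.trans_le hWR
  by_cases hXR : R < X
  · have h1 := norm_vec hu R 0
    have h2 : ‖vec u R 0‖ = R := by
      rw [zero_pow two_ne_zero, add_zero] at h1
      exact (pow_left_inj₀ (norm_nonneg _) hR0.le two_ne_zero).1 h1
    refine ⟨vec u R 0, ⟨by rw [h2]; exact hWR, Or.inr h2.ge⟩, ?_, ?_⟩
    · rw [dot_vec hu, abs_of_pos hR0]; exact hXR
    · rw [wedge_vec hu, abs_zero]; exact hY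
  by_cases hYR : R < Y
  · have h1 := norm_vec hu 0 R
    have h2 : ‖vec u 0 R‖ = R := by
      rw [zero_pow two_ne_zero, zero_add] at h1
      exact (pow_left_inj₀ (norm_nonneg _) hR0.le two_ne_zero).1 h1
    refine ⟨vec u 0 R, ⟨by rw [h2]; exact hWR, Or.inr h2.ge⟩, ?_, ?_⟩
    · rw [dot_vec hu, abs_zero]; exact hX
    · rw [wedge_vec hu, abs_of_pos hR0]; exact hYR
  push Not at hXR hYR
  by_contra hcon
  push Not at hcon
  obtain ⟨a, ha⟩ : ∃ a : ℕ, a = ⌈X / W⌉₊ := ⟨_, rfl⟩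
  obtain ⟨b, hb⟩ : ∃ b : ℕ, b = ⌈Y / W⌉₊ := ⟨_, rfl⟩
  have ha1 : X / W ≤ a := by rw [ha]; exact Nat.le_ceil _
  have hb1 : Y / W ≤ b := by rw [hb]; exact Nat.le_ceil _
  have ha2 : ((a : ℝ) - 1) * W < X := by
    have h : (a : ℝ) < X / W + 1 := by rw [ha]; exact Nat.ceil_lt_add_one (by positivity)
    have h2 : (a : ℝ) - 1 < X / W := by linarith
    exact (lt_div_iff₀ hW).1 h2
  have hb2 : ((b : ℝ) - 1) * W < Y := by
    have h : (b : ℝ) < Y / W + 1 := by rw [hb]; exact Nat.ceil_lt_add_one (by positivity)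
    have h2 : (b : ℝ) - 1 < Y / W := by linarith
    exact (lt_div_iff₀ hW).1 h2
  obtain ⟨M, hM⟩ : ∃ M : ℝ, M = (a : ℝ) * b := ⟨_, rfl⟩
  have hM2 : 2 * N < M := by
    have h1 : X / W * (Y / W) ≤ (a : ℝ) * b :=
      mul_le_mul ha1 hb1 (by positivity) (Nat.cast_nonneg _)
    have h2 : X / W * (Y / W) = X * Y / W ^ 2 := by field_simp
    have h3 : 2 * N < X * Y / W ^ 2 := by
      rw [lt_div_iff₀ (by positivity)]
      linarith
    rw [hM]
    linarith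
  have hM0 : 0 < M := by linarith
  obtain ⟨w, hw⟩ : ∃ w : Fin a × Fin b → Plane, ∀ i, w i = vec u ((i.1 : ℕ) * W) ((i.2 : ℕ) * W) :=
    ⟨_, fun _ => rfl⟩
  have hdot : ∀ i j, dot u (w i - w j) = (((i.1 : ℕ) : ℝ) - ((j.1 : ℕ) : ℝ)) * W := by
    intro i j
    rw [Pool.Agent.H18.Danzer.dot_sub_right, hw, hw, dot_vec hu, dot_vec hu]
    ring
  have hwed : ∀ i j, wedge u (w i - w j) = (((i.2 : ℕ) : ℝ) - ((j.2 : ℕ) : ℝ)) * W := by
    intro i j
    rw [wedge_sub_right, hw, hw, wedge_vec hu, wedge_vec hu]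
    ring
  have hnorm : ∀ i j, i ≠ j → W ≤ ‖w i - w j‖ := by
    intro i j hij
    have h1 := dot_sq_add_wedge_sq u (w i - w j)
    rw [hu, hdot, hwed] at h1
    have h2 : (1 : ℝ) ≤ (((i.1 : ℕ) : ℝ) - ((j.1 : ℕ) : ℝ)) ^ 2 +
        (((i.2 : ℕ) : ℝ) - ((j.2 : ℕ) : ℝ)) ^ 2 := by
      have h3 : (1 : ℤ) ≤ (((i.1 : ℕ) : ℤ) - ((j.1 : ℕ) : ℤ)) ^ 2 +
          (((i.2 : ℕ) : ℤ) - ((j.2 : ℕ) : ℤ)) ^ 2 := by
        by_contra h4
        push Not at h4
        have h5 : (((i.1 : ℕ) : ℤ) - ((j.1 : ℕ) : ℤ)) = 0 := by nlinarith [sq_nonneg (((i.1 : ℕ) : ℤ) - ((j.1 : ℕ) : ℤ)), sq_nonneg (((i.2 : ℕ) : ℤ) - ((j.2 : ℕ) : ℤ))]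
        have h6 : (((i.2 : ℕ) : ℤ) - ((j.2 : ℕ) : ℤ)) = 0 := by nlinarith [sq_nonneg (((i.1 : ℕ) : ℤ) - ((j.1 : ℕ) : ℤ)), sq_nonneg (((i.2 : ℕ) : ℤ) - ((j.2 : ℕ) : ℤ))]
        apply hij
        ext
        · omega
        · omega
      exact_mod_cast h3
    have h7 : W ^ 2 ≤ ‖w i - w j‖ ^ 2 := by nlinarith [sq_nonneg W]
    exact (pow_le_pow_iff_left₀ hW.le (norm_nonneg _) (by norm_num)).1 h7
  have hFc : (0 : ℝ) < F.card := by exact_mod_cast hF.card_pos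
  have hoff : ∀ i j, i ≠ j → ‖G F (w i - w j)‖ ^ (2 * l) ≤ (F.card : ℝ) ^ (2 * l) / (2 * N) := by
    intro i j hij
    have h1 : ‖G F (w i - w j)‖ < (1 - δ) * F.card := by
      by_contra h2
      push Not at h2
      have h3 := hcon (w i - w j) ⟨hnorm i j hij, Or.inl h2⟩ (by
        rw [hdot, abs_mul, abs_of_pos hW]
        exact (mul_le_mul_of_nonneg_right (abs_sub_fin _ _) hW.le).trans_lt ha2)
      rw [hwed, abs_mul, abs_of_pos hW] at h3
      exact absurd ((mul_le_mul_of_nonneg_right (abs_sub_fin i.2 j.2) hW.le).trans_lt hb2)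
        (not_lt.2 h3)
    calc ‖G F (w i - w j)‖ ^ (2 * l) ≤ ((1 - δ) * F.card) ^ (2 * l) :=
          pow_le_pow_left₀ (norm_nonneg _) h1.le _
      _ = (1 - δ) ^ (2 * l) * (F.card : ℝ) ^ (2 * l) := mul_pow _ _ _
      _ ≤ 1 / (2 * N) * (F.card : ℝ) ^ (2 * l) := by
          apply mul_le_mul_of_nonneg_right _ (by positivity)
          rw [le_div_iff₀ (by linarith)]
          exact hδ
      _ = _ := by ring
  have hall : ∑ i, ∑ j, ‖G F (w i - w j)‖ ^ (2 * l) ≤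
      M ^ 2 * ((F.card : ℝ) ^ (2 * l) / (2 * N)) + M * (F.card : ℝ) ^ (2 * l) := by
    have h1 : ∀ i j, ‖G F (w i - w j)‖ ^ (2 * l) ≤ (F.card : ℝ) ^ (2 * l) / (2 * N) +
        if i = j then (F.card : ℝ) ^ (2 * l) else 0 := by
      intro i j
      split_ifs with h
      · rw [h, sub_self, G_zero]
        have : 0 ≤ (F.card : ℝ) ^ (2 * l) / (2 * N) := by positivity
        linarith
      · rw [add_zero]
        exact hoff i j h
    refine (sum_le_sum fun i _ => sum_le_sum fun j _ => h1 i j).trans (le_of_eq ?_)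
    have h2 : ∀ i : Fin a × Fin b, ∑ j : Fin a × Fin b, ((F.card : ℝ) ^ (2 * l) / (2 * N) +
        if i = j then (F.card : ℝ) ^ (2 * l) else 0) =
        M * ((F.card : ℝ) ^ (2 * l) / (2 * N)) + (F.card : ℝ) ^ (2 * l) := by
      intro i
      rw [sum_add_distrib, sum_ite_eq, if_pos (mem_univ _), sum_const, card_univ,
        Fintype.card_prod, Fintype.card_fin, Fintype.card_fin, nsmul_eq_mul, hM]
      push_cast
      ring
    rw [sum_congr rfl fun i _ => h2 i, sum_const, card_univ, Fintype.card_prod, Fintype.card_fin,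
      Fintype.card_fin, nsmul_eq_mul]
    push_cast
    rw [← hM]
    ring
  have hwn : ∀ i, ‖w i‖ * ρ ≤ 1 / 8 := by
    intro i
    have h1 : ((i.1 : ℕ) : ℝ) * W ≤ R := by
      have h2 : ((i.1 : ℕ) : ℝ) + 1 ≤ a := by exact_mod_cast i.1.2
      have h3 : ((i.1 : ℕ) : ℝ) * W ≤ ((a : ℝ) - 1) * W :=
        mul_le_mul_of_nonneg_right (by linarith) hW.le
      linarith
    have h2 : ((i.2 : ℕ) : ℝ) * W ≤ R := by
      have h2 : ((i.2 : ℕ) : ℝ) + 1 ≤ b := by exact_mod_cast i.2.2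
      have h3 : ((i.2 : ℕ) : ℝ) * W ≤ ((b : ℝ) - 1) * W :=
        mul_le_mul_of_nonneg_right (by linarith) hW.le
      linarith
    have h3 : 0 ≤ ((i.1 : ℕ) : ℝ) * W := by positivity
    have h4 : 0 ≤ ((i.2 : ℕ) : ℝ) * W := by positivity
    have h5 := norm_vec hu (((i.1 : ℕ) : ℝ) * W) (((i.2 : ℕ) : ℝ) * W)
    rw [← hw] at h5
    have h6 : ‖w i‖ ^ 2 ≤ (3 / 2 * R) ^ 2 := by nlinarith
    have h7 : ‖w i‖ ≤ 3 / 2 * R :=
      (pow_le_pow_iff_left₀ (norm_nonneg _) (by positivity) (by norm_num)).1 h6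
    have h8 := mul_le_mul_of_nonneg_right h7 hρ0
    linarith
  have hen := energy w F l hwn
  rw [Fintype.card_prod, Fintype.card_fin, Fintype.card_fin] at hen
  push_cast at hen
  rw [← hM] at hen
  have h0 : M ^ 2 * (F.card : ℝ) ^ (2 * l) ≤ N * (M ^ 2 / 2 * En ρ F l) := by
    have h := mul_le_mul_of_nonneg_left hNE (by positivity : 0 ≤ M ^ 2 / 2)
    linarith
  have h1 := h0.trans (mul_le_mul_of_nonneg_left (hen.trans hall) hN0.le)
  have h2 : N * (M ^ 2 * ((F.card : ℝ) ^ (2 * l) / (2 * N)) + M * (F.card : ℝ) ^ (2 * l)) =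
      (M ^ 2 / 2 + N * M) * (F.card : ℝ) ^ (2 * l) := by
    field_simp
  rw [h2] at h1
  have h3 := le_of_mul_le_mul_right h1 (by positivity)
  nlinarith

end Pool.Agent.DG62
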